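import Mathlib
import Pool.Agent.X189.BS.Stm

set_option autoImplicit false

namespace Pool.Agent.X328.BS

open Pool.Agent.X189.BS

variable {n : ℕ}

/-- values below the wire `a` vanish -/
theorem inv1 (q : ℤ) (a c : Fin (n + 1)) (hq : 0 < q) (L : List (Fin (n + 1) × Fin (n + 1)))
    (hL : Val a c L) (P S : List (Fin (n + 1) × Fin (n + 1))) (h : L = P ++ S) :
    0 < P.foldl (vstep q) (Pi.single a 1) a ∧
      ∀ z, z ≠ a → (a, z) ∉ P → P.foldl (vstep q) (Pi.single a 1) z = 0 := by
  induction P using List.reverseRecOn generalizing S with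
  | nil =>
    refine ⟨by simp, fun z hz _ => by simp [Pi.single_apply, hz]⟩
  | append_singleton P e ih =>
    obtain ⟨ih1, ih2⟩ := ih (e :: S) (by rw [h]; simp)
    obtain ⟨v1, v2, v3, v4, v5, v6, v7⟩ := hL P e S (by rw [h]; simp)
    rw [List.foldl_append, List.foldl_cons, List.foldl_nil]
    set X := P.foldl (vstep q) (Pi.single a 1) with hX
    constructor
    · unfold vstep
      by_cases h1 : a = e.1
      · rw [if_pos (Or.inl h1)]
        have h2 : X e.2 = 0 := by
          apply ih2 _ (by rw [h1]; exact (ne_of_lt v2).symm)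
          rw [h1]
          exact v4
        rw [h2, ← h1]
        simpa using ih1
      · have h3 : a ≠ e.2 := fun h3 => absurd v1 (not_le.2 (h3 ▸ v2))
        rw [if_neg (by rintro (h4 | h4) <;> [exact h1 h4; exact h3 h4])]
        positivity
    · intro z hz hzP
      have hzP1 : (a, z) ∉ P := fun h => hzP (List.mem_append_left _ h)
      have hze : (a, z) ≠ e := fun h => hzP (by rw [h]; simp)
      unfold vstep
      by_cases h1 : z = e.1 ∨ z = e.2
      · rw [if_pos h1]
        have ha1 : a ≠ e.1 := by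
          intro h2
          rcases h1 with h1 | h1
          · exact hz (h1.trans h2.symm)
          · exact hze (by rw [h1, h2])
        have ha1' : a < e.1 := lt_of_le_of_ne v1 ha1
        have h6 := v6 a le_rfl ha1'
        have h7 : (a, e.1) ∉ P ∧ (a, e.2) ∉ P := by
          rcases h1 with h1 | h1
          · rw [h1] at hzP1
            exact ⟨hzP1, fun h => hzP1 (h6.2 h)⟩
          · rw [h1] at hzP1
            exact ⟨fun h => hzP1 (h6.1 h), hzP1⟩
        rw [ih2 e.1 ha1.symm h7.1, ih2 e.2 (ne_of_gt (lt_trans ha1' v2)) h7.2]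
        simp
      · rw [if_neg h1, ih2 z hz hzP1, mul_zero]

/-- linearity -/
theorem vstep_sub (q : ℤ) (X Y : Fin (n + 1) → ℤ) (e : Fin (n + 1) × Fin (n + 1)) :
    vstep q (fun z => X z - Y z) e = fun z => vstep q X e z - vstep q Y e z := by
  funext z
  unfold vstep
  split_ifs <;> ring

theorem fold_sub (q : ℤ) (S : List (Fin (n + 1) × Fin (n + 1))) (X Y : Fin (n + 1) → ℤ)
    (z : Fin (n + 1)) : S.foldl (vstep q) (fun z => X z - Y z) z =
      S.foldl (vstep q) X z - S.foldl (vstep q) Y z := by
  induction S generalizing X Y with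
  | nil => rfl
  | cons e S ih =>
    rw [List.foldl_cons, List.foldl_cons, List.foldl_cons, vstep_sub]
    exact ih _ _

/-- the difference vanishes above the wire `c` -/
theorem inv2 (q : ℤ) (a c : Fin (n + 1)) (hq : 0 < q) (P S : List (Fin (n + 1) × Fin (n + 1)))
    (hL : Val a c (P ++ S)) (Y : Fin (n + 1) → ℤ) (hc : 0 < Y c)
    (hY : ∀ z, z ≠ c → (z, c) ∉ P → Y z = 0) : 0 < S.foldl (vstep q) Y c := by
  induction S generalizing P Y with
  | nil => exact hc
  | cons e S ih =>
    obtain ⟨v1, v2, v3, v4, v5, v6, v7⟩ := hL P e S rfl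
    rw [List.foldl_cons]
    refine ih (P ++ [e]) (by simpa using hL) _ ?_ ?_
    · unfold vstep
      by_cases h1 : c = e.2
      · rw [if_pos (Or.inr h1)]
        have h2 : Y e.1 = 0 := by
          apply hY _ (by rw [h1]; exact ne_of_lt v2)
          rw [h1]
          exact v4
        rw [h2, ← h1, zero_add]
        positivity
      · have h3 : c ≠ e.1 := fun h3 => absurd v3 (not_le.2 (h3 ▸ v2))
        rw [if_neg (by rintro (h4 | h4) <;> [exact h3 h4; exact h1 h4])]
        positivity
    · intro z hz hzP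
      have hzP1 : (z, c) ∉ P := fun h => hzP (List.mem_append_left _ h)
      have hze : (z, c) ≠ e := fun h => hzP (by rw [h]; simp)
      unfold vstep
      by_cases h1 : z = e.1 ∨ z = e.2
      · rw [if_pos h1]
        have hc2 : e.2 ≠ c := by
          intro h2
          rcases h1 with h1 | h1
          · exact hze (by rw [h1, ← h2])
          · exact hz (h1.trans h2)
        have hc2' : e.2 < c := lt_of_le_of_ne v3 hc2
        have h5 := v5 c hc2' le_rfl
        have h7 : (e.1, c) ∉ P ∧ (e.2, c) ∉ P := by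
          rcases h1 with h1 | h1
          · rw [h1] at hzP1
            exact ⟨hzP1, fun h => hzP1 (h5.1 h)⟩
          · rw [h1] at hzP1
            exact ⟨fun h => hzP1 (h5.2 h), hzP1⟩
        rw [hY e.1 (ne_of_lt (lt_trans v2 hc2')) h7.1, hY e.2 hc2 h7.2]
        simp
      · rw [if_neg h1, hY z hz hzP1, mul_zero]

theorem t_E1 : S_E1 := by
  intro n q a b c P S hq hab hbc hL
  have hac : a < c := hab.trans hbc
  obtain ⟨hA, h0⟩ := inv1 q a c hq _ hL P ((a, b) :: (a, c) :: (b, c) :: S) rfl
  have hnb : (a, b) ∉ P := (hL P (a, b) ((a, c) :: (b, c) :: S) rfl).2.2.2.1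
  have hnc : (a, c) ∉ P := by
    have h1 := (hL (P ++ [(a, b)]) (a, c) ((b, c) :: S) (by simp)).2.2.2.1
    exact fun h => h1 (List.mem_append_left _ h)
  have hb0 := h0 b hab.ne' hnb
  have hc0 := h0 c hac.ne' hnc
  rw [List.foldl_append, List.foldl_append]
  set X := P.foldl (vstep q) (Pi.single a 1) with hX
  simp only [List.foldl_cons]
  set X1 := vstep q (vstep q (vstep q X (a, b)) (a, c)) (b, c) with hX1
  set X2 := vstep q (vstep q (vstep q X (b, c)) (a, c)) (a, b) with hX2
  have ea1 : X1 a = (1 + q) * X a := by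
    simp [hX1, vstep, hab.ne, hab.ne', hac.ne, hac.ne', hbc.ne, hbc.ne', hb0, hc0]
  have ea2 : X2 a = (1 + q) * X a := by
    simp [hX2, vstep, hab.ne, hab.ne', hac.ne, hac.ne', hbc.ne, hbc.ne', hb0, hc0]
  have ec1 : X1 c = (1 + 2 * q) * X a := by
    simp [hX1, vstep, hab.ne, hab.ne', hac.ne, hac.ne', hbc.ne, hbc.ne', hb0, hc0]
    ring
  have ec2 : X2 c = (1 + q) * ((1 + q) * X a) := by
    simp [hX2, vstep, hab.ne, hab.ne', hac.ne, hac.ne', hbc.ne, hbc.ne', hb0, hc0]
  have ez : ∀ z, z ≠ a → z ≠ b → z ≠ c → X2 z - X1 z = 0 := by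
    intro z h1 h2 h3
    simp [hX1, hX2, vstep, h1, h2, h3]
  have key : 0 < S.foldl (vstep q) (fun z => X2 z - X1 z) c := by
    refine inv2 q a c hq (P ++ [(a, b), (a, c), (b, c)]) S (by simpa using hL) _ ?_ ?_
    · show 0 < X2 c - X1 c
      rw [ec1, ec2]
      have : (1 + q) * ((1 + q) * X a) - (1 + 2 * q) * X a = q ^ 2 * X a := by ring
      rw [this]
      positivity
    · intro z hz hzP
      show X2 z - X1 z = 0
      by_cases h1 : z = a
      · rw [h1, ea1, ea2, sub_self]
      by_cases h2 : z = b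
      · exfalso
        apply hzP
        rw [h2]
        simp
      exact ez z h1 h2 hz
  rw [fold_sub] at key
  linarith

end Pool.Agent.X328.BS
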